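import Pool.Agent.TH856.SP.Main

/-! Proofs of the parts (4)-(6). -/

set_option autoImplicit false

namespace Pool.Agent.TH856.SP

open Polynomial Module MeasureTheory Submodule Filter
open Pool.Agent.W967.LI

theorem H2_gain (D t : ℝ) : gain D t = H2 t / 2 - t * Real.logb 2 D := rfl

/-- (3) in the form used below: only `D ^ r`, a lower bound for the gain -/
theorem of_gain (c x ε : ℝ) (hc : 0 ≤ c) (hv : ValidExpE c) (hε : 0 < ε) : ∃ n0 : ℕ,
    ∀ (n s : ℕ) (Λ : Submodule ℤ (EuclideanSpace ℝ (Fin n))) (m : ℝ)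
      (g : EuclideanSpace ℝ (Fin n) ≃ₗᵢ[ℝ] EuclideanSpace ℝ (Fin n)) (D : ℝ), n0 ≤ n →
      AutLat Λ m g s → Base g D → 0 < s → s < n → x ≤ gain D (1 - s / n) →
      densE Λ m ≤ (2 : ℝ) ^ (-((c + x - ε) * n)) := by
  obtain ⟨n0, hn0⟩ := expo c hc ((validE_iff c).1 hv) ε hε
  refine ⟨n0, fun n s Λ m g D hn h hb hs hsn hx => ?_⟩
  have hD : 0 < D := lt_of_lt_of_le one_pos hb.1
  have hn' : (0 : ℝ) < n := by exact_mod_cast (lt_trans hs hsn)
  obtain ⟨L₁, L₂, p1, p2, hl⟩ := ineq_det (r := n - s) (by omega) Λ m g h D hb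
  have h1 := hn0 n (n - s) s (by omega) hs (by omega) hn _ _ m (by positivity) L₁ L₂ p1 p2 hl
  refine h1.trans ?_
  have e1 : D ^ (n - s) = (2 : ℝ) ^ (Real.logb 2 D * ((n : ℝ) - s)) := by
    rw [Real.rpow_mul (by norm_num), Real.rpow_logb (by norm_num) (by norm_num) hD,
      ← Nat.cast_sub hsn.le, Real.rpow_natCast]
  rw [e1, ← Real.rpow_add (by norm_num)]
  apply Real.rpow_le_rpow_of_exponent_le (by norm_num)
  have e2 : H2 (1 - (s : ℝ) / n) = H2 (s / n) := by
    unfold H2; rw [Real.binEntropy_one_sub]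
  rw [H2_gain, e2] at hx
  have e3 : (1 - (s : ℝ) / n) * n = n - s := by field_simp
  have hx' := mul_le_mul_of_nonneg_right hx hn'.le
  have e4 : (H2 (↑s / ↑n) / 2 - (1 - ↑s / ↑n) * Real.logb 2 D) * n
      = H2 (↑s / ↑n) / 2 * n - Real.logb 2 D * (n - s) := by
    rw [← e3]; ring
  rw [e4] at hx'
  nlinarith

theorem log2_pos : 0 < Real.log 2 := Real.log_pos (by norm_num)

theorem largePeriods : LargePeriods := by
  intro δ hδ
  rcases lt_or_ge (1 / 2) δ with hδ2 | hδ2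
  · refine ⟨0, 1, one_pos, fun c hc hv => ⟨1, fun n s Λ m g hn h _ h1 h2 => ?_⟩⟩
    exfalso
    have hn' : (1 : ℝ) ≤ n := by exact_mod_cast hn
    nlinarith
  set H : ℝ := H2 δ with hH
  have hHpos : 0 < H := by
    rw [hH]; unfold H2
    exact div_pos (Real.binEntropy_pos hδ (by linarith)) log2_pos
  set D : ℝ := (2 : ℝ) ^ (H / 4) with hD
  have hD1 : 1 ≤ D := Real.one_le_rpow (by norm_num) (by positivity)
  -- the bound `M`
  have hx : |(2 : ℝ) ^ (-(H / 8))| < 1 := by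
    rw [abs_of_pos (by positivity)]
    exact Real.rpow_lt_one_of_one_lt_of_neg (by norm_num) (by linarith)
  have h1 := tendsto_pow_const_mul_const_pow_of_abs_lt_one 1 hx
  have h2 : ∀ᶠ q : ℕ in atTop, (q : ℝ) ^ 1 * ((2 : ℝ) ^ (-(H / 8))) ^ q < 1 :=
    (tendsto_order.1 h1).2 _ one_pos
  obtain ⟨M, hM⟩ := eventually_atTop.1 h2
  have hbase : ∀ (n : ℕ) (g : EuclideanSpace ℝ (Fin n) ≃ₗᵢ[ℝ] EuclideanSpace ℝ (Fin n)),
      (∀ d : ℕ, 0 < d → d ≤ M → ∀ x, g^[d] x = x → g x = x) → Base g D := by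
    intro n g hg
    refine ⟨hD1, fun p k hp hk h => ?_⟩
    have hq := hasOrd_gt g hg hp hk h
    have h3 := hM (p ^ k) hq.le
    rw [pow_one] at h3
    have h4 : (((p ^ k : ℕ)) : ℝ) < (2 : ℝ) ^ (H / 8 * ((p ^ k : ℕ) : ℝ)) := by
      have e : ((2 : ℝ) ^ (-(H / 8))) ^ (p ^ k) = ((2 : ℝ) ^ (H / 8 * ((p ^ k : ℕ) : ℝ)))⁻¹ := by
        rw [← Real.rpow_natCast, ← Real.rpow_mul (by norm_num), ← Real.rpow_neg (by norm_num)]
        congr 1
        ring
      rw [e, ← div_eq_mul_inv, div_lt_one (by positivity)] at h3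
      exact h3
    have h5 : p ^ k ≤ 2 * Nat.totient (p ^ k) := by
      rw [Nat.totient_prime_pow hp hk]
      have h6 : p ≤ 2 * (p - 1) := by have := hp.two_le; omega
      have h7 : p ^ k = p ^ (k - 1) * p := by
        rw [← pow_succ]; congr 1; omega
      calc p ^ k = p ^ (k - 1) * p := h7
        _ ≤ p ^ (k - 1) * (2 * (p - 1)) := Nat.mul_le_mul_left _ h6
        _ = _ := by ring
    have h5' : ((p ^ k : ℕ) : ℝ) ≤ 2 * (Nat.totient (p ^ k) : ℝ) := by exact_mod_cast h5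
    have h8 : (p : ℝ) ≤ ((p ^ k : ℕ) : ℝ) := by
      exact_mod_cast Nat.le_self_pow hk.ne' p
    calc (p : ℝ) ≤ ((p ^ k : ℕ) : ℝ) := h8
      _ ≤ (2 : ℝ) ^ (H / 8 * ((p ^ k : ℕ) : ℝ)) := h4.le
      _ ≤ (2 : ℝ) ^ (H / 4 * (Nat.totient (p ^ k) : ℝ)) := by
          apply Real.rpow_le_rpow_of_exponent_le (by norm_num)
          nlinarith
      _ = D ^ Nat.totient (p ^ k) := by
          rw [hD, ← Real.rpow_natCast, ← Real.rpow_mul (by norm_num)]
  refine ⟨M, H / 8, by positivity, fun c hc hv => ?_⟩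
  obtain ⟨n0, hn0⟩ := of_gain c (H / 4) (H / 8) hc hv (by positivity)
  refine ⟨max n0 1, fun n s Λ m g hn h hg h1 h2 => ?_⟩
  have hn1 : 1 ≤ n := le_trans (le_max_right _ _) hn
  have hn' : (0 : ℝ) < n := by exact_mod_cast hn1
  have hs0 : (0 : ℝ) < s := lt_of_lt_of_le (by positivity) h1
  have hs0' : 0 < s := by exact_mod_cast hs0
  have hsn : (s : ℝ) < n := by nlinarith
  have hsn' : s < n := by exact_mod_cast hsn
  have h3 := hn0 n s Λ m g D (le_trans (le_max_left _ _) hn) h (hbase n g hg) hs0' hsn' (by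
    have t1 : δ ≤ 1 - (s : ℝ) / n := by
      rw [le_sub_iff_add_le, ← le_sub_iff_add_le', div_le_iff₀ hn']; linarith
    have t2 : 1 - (s : ℝ) / n ≤ 1 - δ := by
      have : δ ≤ (s : ℝ) / n := by rw [le_div_iff₀ hn']; exact h1
      linarith
    rcases eq_or_lt_of_le hδ2 with he | hlt
    · have e : 1 - (s : ℝ) / n = δ := by linarith
      rw [e, H2_gain, hD, Real.logb_rpow (by norm_num) (by norm_num), ← hH]
      nlinarith
    · have hlog : Real.logb 2 D = H / 4 := by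
        rw [hD, Real.logb_rpow (by norm_num) (by norm_num)]
      have g1 : H / 4 ≤ gain D δ := by
        rw [H2_gain, hlog, ← hH]
        nlinarith
      have g2 : H / 4 ≤ gain D (1 - δ) := by
        have : H2 (1 - δ) = H := by unfold H2; rw [Real.binEntropy_one_sub]; rfl
        rw [H2_gain, hlog, this]
        nlinarith
      exact gain_concave D δ (1 - δ) _ hδ.le (by linarith) (by linarith) t1 t2 _ g1 g2)
  refine h3.trans (le_of_eq ?_)
  congr 2
  ring

theorem fewFixed : FewFixed := by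
  intro δ c hδ hc hv
  have hl := log2_pos
  have hl2 : Real.log 2 < 0.6931471808 := Real.log_two_lt_d9
  obtain ⟨n0, hn0⟩ := expo c hc ((validE_iff c).1 hv) (δ / 25) (by positivity)
  refine ⟨max n0 1, fun n s Λ m g N hn h hN hgN h1 h2 => ?_⟩
  have hn1 : 1 ≤ n := le_trans (le_max_right _ _) hn
  have hn' : (0 : ℝ) < n := by exact_mod_cast hn1
  have hs0 : (0 : ℝ) < s := lt_of_lt_of_le (by positivity) h1
  have hs0' : 0 < s := by exact_mod_cast hs0
  have hN' : (2 : ℝ) ≤ N := by exact_mod_cast hN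
  have hsn' : s < n := by
    have h4 : 2 ^ 2 ≤ N ^ 2 := Nat.pow_le_pow_left hN 2
    nlinarith
  have h2' : (s : ℝ) * (N : ℝ) ^ 2 ≤ n := by exact_mod_cast h2
  obtain ⟨L₁, L₂, p1, p2, hle⟩ := ineq_order (r := n - s) (by omega) Λ m g h N (by omega) hgN
  have h3 := hn0 n (n - s) s (by omega) hs0' (by omega) (le_trans (le_max_left _ _) hn) _ _ m
    (by positivity) L₁ L₂ p1 p2 hle
  refine h3.trans ?_
  set σ : ℝ := (s : ℝ) / n with hσ
  have hσ0 : 0 < σ := by positivity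
  have hσδ : δ ≤ σ := by rw [hσ, le_div_iff₀ hn']; exact h1
  have hσN : σ * (N : ℝ) ^ 2 ≤ 1 := by
    rw [hσ, div_mul_eq_mul_div, div_le_one hn']; exact h2'
  have hN4 : (4 : ℝ) ≤ (N : ℝ) ^ 2 := by nlinarith
  have hσ4 : σ ≤ 1 / 4 := by
    have := mul_le_mul_of_nonneg_left hN4 hσ0.le
    linarith
  have e1 : (N : ℝ) ^ s = (2 : ℝ) ^ (Real.logb 2 N * s) := by
    rw [Real.rpow_mul (by norm_num), Real.rpow_logb (by norm_num) (by norm_num) (by linarith),
      Real.rpow_natCast]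
  rw [e1, ← Real.rpow_add (by norm_num)]
  apply Real.rpow_le_rpow_of_exponent_le (by norm_num)
  have hsσ : (s : ℝ) = σ * n := by rw [hσ]; field_simp
  -- the entropy
  have k1 : 2 * Real.log N ≤ Real.log σ⁻¹ := by
    have : Real.log ((N : ℝ) ^ 2) ≤ Real.log σ⁻¹ := by
      apply Real.log_le_log (by positivity)
      rw [le_inv_comm₀ (by positivity) hσ0, ← one_div, le_div_iff₀ (by positivity)]
      exact hσN
    rw [Real.log_pow] at this
    exact_mod_cast this
  have k2 : σ ≤ Real.log (1 - σ)⁻¹ := by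
    rw [Real.log_inv]
    have := Real.log_le_sub_one_of_pos (show 0 < 1 - σ by linarith)
    linarith
  have k3 : σ * (2 * Real.log N) + (1 - σ) * σ ≤ Real.binEntropy σ := by
    rw [Real.binEntropy]
    have a1 := mul_le_mul_of_nonneg_left k1 hσ0.le
    have a2 := mul_le_mul_of_nonneg_left k2 (show 0 ≤ 1 - σ by linarith)
    linarith
  have k4 : σ * Real.logb 2 N + 27 / 50 * σ ≤ H2 σ / 2 := by
    unfold H2 Real.logb
    rw [div_div, le_div_iff₀ (by positivity)]
    have e : (σ * (Real.log N / Real.log 2) + 27 / 50 * σ) * (Real.log 2 * 2)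
        = σ * (2 * Real.log N) + 27 / 25 * σ * Real.log 2 := by
      field_simp
      ring
    rw [e]
    have : 27 / 25 * σ * Real.log 2 ≤ (1 - σ) * σ := by nlinarith
    linarith
  have k5 : Real.logb 2 N * s = (σ * Real.logb 2 N) * n := by rw [hsσ]; ring
  rw [k5]
  nlinarith

theorem pow_base (D : ℝ) (m0 : ℕ) (h1 : 1 ≤ D) (h2 : ((m0 : ℝ) + 1) ≤ D ^ m0)
    (h3 : 1 ≤ (m0 + 1 : ℝ) * (D - 1)) : ∀ m : ℕ, m0 ≤ m → ((m : ℝ) + 1) ≤ D ^ m := by
  intro m hm
  induction m, hm using Nat.le_induction with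
  | base => exact h2
  | succ m hm ih =>
    have hm' : (m0 : ℝ) ≤ m := by exact_mod_cast hm
    rw [pow_succ]
    push_cast
    nlinarith

theorem totient_ge {p k : ℕ} (hp : p.Prime) (hk : 0 < k) : p ≤ Nat.totient (p ^ k) + 1 := by
  rw [Nat.totient_prime_pow hp hk]
  have h1 : 1 ≤ p ^ (k - 1) := Nat.one_le_pow _ _ hp.pos
  have h2 : 1 * (p - 1) ≤ p ^ (k - 1) * (p - 1) := Nat.mul_le_mul_right _ h1
  have := hp.two_le
  omega

theorem le_two_totient {p k : ℕ} (hp : p.Prime) (hk : 0 < k) : p ^ k ≤ 2 * Nat.totient (p ^ k) := by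
  rw [Nat.totient_prime_pow hp hk]
  have h6 : p ≤ 2 * (p - 1) := by have := hp.two_le; omega
  have h7 : p ^ k = p ^ (k - 1) * p := by
    rw [← pow_succ]; congr 1; omega
  calc p ^ k = p ^ (k - 1) * p := h7
    _ ≤ p ^ (k - 1) * (2 * (p - 1)) := Nat.mul_le_mul_left _ h6
    _ = _ := by ring

theorem base_four {n : ℕ} (g : EuclideanSpace ℝ (Fin n) ≃ₗᵢ[ℝ] EuclideanSpace ℝ (Fin n))
    (hg : ∀ d : ℕ, 0 < d → d ≤ 4 → ∀ x, g^[d] x = x → g x = x) : Base g (3 / 2) := by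
  refine ⟨by norm_num, fun p k hp hk h => ?_⟩
  have hq := hasOrd_gt g hg hp hk h
  have h1 := le_two_totient hp hk
  have h2 := totient_ge hp hk
  have h3 := Nat.totient_even (n := p ^ k) (by omega)
  have h4 : 4 ≤ Nat.totient (p ^ k) := by
    obtain ⟨a, ha⟩ := h3
    omega
  have h5 := pow_base (3 / 2) 4 (by norm_num) (by norm_num) (by norm_num) _ h4
  refine le_trans ?_ h5
  exact_mod_cast h2

theorem base_sixteen {n : ℕ} (g : EuclideanSpace ℝ (Fin n) ≃ₗᵢ[ℝ] EuclideanSpace ℝ (Fin n))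
    (hg : ∀ d : ℕ, 0 < d → d ≤ 16 → ∀ x, g^[d] x = x → g x = x) : Base g (6 / 5) := by
  refine ⟨by norm_num, fun p k hp hk h => ?_⟩
  have hq := hasOrd_gt g hg hp hk h
  have h1 := le_two_totient hp hk
  have h2 := totient_ge hp hk
  have h4 : 16 ≤ Nat.totient (p ^ k) := by
    by_contra hcon
    have h5 : p ^ k < 32 := by omega
    have h6 : IsPrimePow (p ^ k) := hp.isPrimePow.pow hk.ne'
    have key : ∀ q : ℕ, 16 < q → q < 32 → IsPrimePow q → 16 ≤ Nat.totient q := by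
      intro q hq1 hq2 hq3
      have hpp : ∃ a b : ℕ, a < 32 ∧ b < 6 ∧ 0 < b ∧ a.Prime ∧ a ^ b = q := by
        obtain ⟨a, b, ha, hb, rfl⟩ := (isPrimePow_nat_iff _).1 hq3
        refine ⟨a, b, lt_of_le_of_lt (Nat.le_self_pow hb.ne' a) hq2, ?_, hb, ha, rfl⟩
        by_contra h6
        rw [not_lt] at h6
        have : 2 ^ 6 ≤ a ^ b := le_trans (Nat.pow_le_pow_left ha.two_le 6)
          (Nat.pow_le_pow_right ha.pos h6)
        omega
      obtain ⟨a, b, h7, h8, h9, h10, h11⟩ := hpp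
      subst h11
      rw [Nat.totient_prime_pow h10 h9]
      interval_cases b <;> interval_cases a <;> simp_all (config := {decide := true})
    exact hcon (key _ hq h5 h6)
  have h5 := pow_base (6 / 5) 16 (by norm_num) (by norm_num) (by norm_num) _ h4
  refine le_trans ?_ h5
  exact_mod_cast h2

end Pool.Agent.TH856.SP
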