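import Mathlib

/-! Definitions for `MP_dbfdb2_gt.PrimeOrderAutomorphisms`. -/

set_option autoImplicit false

namespace Pool.Agent.TH856.SP

open Polynomial

/-- some eigenvalue of `g` is a primitive `d`-th root of unity: `Φ_d(g) x = 0` for a vector
`x ≠ 0` -/
def HasOrd {n : ℕ} (g : EuclideanSpace ℝ (Fin n) ≃ₗᵢ[ℝ] EuclideanSpace ℝ (Fin n)) (d : ℕ) : Prop :=
  ∃ x : EuclideanSpace ℝ (Fin n), x ≠ 0 ∧
    (aeval (g.toLinearEquiv.toLinearMap) (cyclotomic d ℝ)) x = 0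

/-- `1 ≤ D`, and `p ≤ D ^ φ(p ^ k)` for all prime powers `p ^ k` which are orders of eigenvalues of
`g` -/
def Base {n : ℕ} (g : EuclideanSpace ℝ (Fin n) ≃ₗᵢ[ℝ] EuclideanSpace ℝ (Fin n)) (D : ℝ) : Prop :=
  1 ≤ D ∧ ∀ p k : ℕ, p.Prime → 0 < k → HasOrd g (p ^ k) → (p : ℝ) ≤ D ^ Nat.totient (p ^ k)

/-- binary entropy in bits -/
noncomputable def H2 (t : ℝ) : ℝ := Real.binEntropy t / Real.log 2

end Pool.Agent.TH856.SP
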