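import Pool.Agent.TH856.SP.Swap
import Pool.Agent.TH856.SP.Defs
import Pool.Agent.W967.LI.Free

/-! Lattices of Euclidean spaces with an automorphism: coordinates and the two inequalities. -/

set_option autoImplicit false

namespace Pool.Agent.TH856.SP

open Polynomial Module MeasureTheory Submodule
open scoped InnerProductSpace
open Pool.Agent.W967.LI

/-- Coordinates adapted to the automorphism `g`. -/
theorem coords' {n : ℕ} (Λ : Submodule ℤ (EuclideanSpace ℝ (Fin n))) (m : ℝ) (hΛ : LatPackE Λ m)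
    (g : EuclideanSpace ℝ (Fin n) ≃ₗᵢ[ℝ] EuclideanSpace ℝ (Fin n)) (hg : ∀ x ∈ Λ, g x ∈ Λ)
    (r s : ℕ) (hs : finrank ℝ (fixSpace g) = s) (hrs : r + s = n) :
    ∃ (Λ' : Submodule ℤ (Fin r ⊕ Fin s → ℝ)) (h : (Fin r → ℝ) →ₗ[ℝ] (Fin r → ℝ))
      (ψ : (Fin r → ℝ) →ₗ[ℝ] EuclideanSpace ℝ (Fin n)),
      LatPack Λ' m ∧ dens Λ' m = densE Λ m ∧ Function.Injective ψ ∧
      (∀ u, ψ (h u) = g (ψ u)) ∧ (∀ u, h u = u → u = 0) ∧
      ∀ x ∈ Λ', Sum.elim (h (fun i => x (Sum.inl i))) (fun j => x (Sum.inr j)) ∈ Λ' := by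
  have hd := hΛ.disc
  have hz : IsZLattice ℝ Λ := ⟨hΛ.span_top⟩
  set W := fixSpace g with hW
  have hWm : ∀ x, x ∈ W ↔ g x = x := fun x => Iff.rfl
  have hr : finrank ℝ Wᗮ = r := by
    have := Submodule.finrank_add_finrank_orthogonal W
    rw [finrank_euclideanSpace_fin] at this
    omega
  let b₁ : OrthonormalBasis (Fin r) ℝ Wᗮ := (stdOrthonormalBasis ℝ Wᗮ).reindex (finCongr hr)
  let b₂ : OrthonormalBasis (Fin s) ℝ W := (stdOrthonormalBasis ℝ W).reindex (finCongr hs)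
  let v : Fin r ⊕ Fin s → EuclideanSpace ℝ (Fin n) :=
    Sum.elim (fun i => (b₁ i : EuclideanSpace ℝ (Fin n))) (fun j => (b₂ j : EuclideanSpace ℝ (Fin n)))
  have hv : Orthonormal ℝ v := by
    constructor
    · rintro (i | j)
      · exact b₁.orthonormal.1 i
      · exact b₂.orthonormal.1 j
    · rintro (i | i) (j | j) hij
      · exact b₁.orthonormal.2 (fun e => hij (by rw [e]))
      · exact Submodule.inner_left_of_mem_orthogonal (b₂ j).2 (b₁ i).2
      · exact Submodule.inner_right_of_mem_orthogonal (b₂ i).2 (b₁ j).2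
      · exact b₂.orthonormal.2 (fun e => hij (by rw [e]))
  have hspan : ⊤ ≤ span ℝ (Set.range v) := by
    have hc : Fintype.card (Fin r ⊕ Fin s) = finrank ℝ (EuclideanSpace ℝ (Fin n)) := by
      simp [hrs]
    exact (hv.linearIndependent.span_eq_top_of_card_eq_finrank' hc).ge
  let ob := OrthonormalBasis.mk hv hspan
  have hob : ∀ i, ob i = v i := fun i => by
    rw [OrthonormalBasis.coe_mk]
  obtain ⟨Λ', hmem, hp, hdens⟩ := transfer (by simp [hrs]) ob Λ m hΛ
  let ψ : (Fin r → ℝ) →ₗ[ℝ] EuclideanSpace ℝ (Fin n) :=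
    (Wᗮ).subtype ∘ₗ b₁.repr.symm.toLinearEquiv.toLinearMap ∘ₗ
      (EuclideanSpace.equiv (Fin r) ℝ).symm.toLinearEquiv.toLinearMap
  have hψ : ∀ u, ψ u = ∑ i, u i • (b₁ i : EuclideanSpace ℝ (Fin n)) := by
    intro u
    change ((b₁.repr.symm ((EuclideanSpace.equiv (Fin r) ℝ).symm u) : Wᗮ) :
      EuclideanSpace ℝ (Fin n)) = _
    rw [← OrthonormalBasis.sum_repr_symm, AddSubmonoidClass.coe_finsetSum]
    rfl
  have hψn : ∀ u, ‖ψ u‖ ^ 2 = ∑ i, u i ^ 2 := by
    intro u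
    have e : ‖ψ u‖ = ‖(EuclideanSpace.equiv (Fin r) ℝ).symm u‖ := by
      change ‖b₁.repr.symm _‖ = _
      rw [LinearIsometryEquiv.norm_map]
      rfl
    rw [e, EuclideanSpace.norm_sq_eq]
    apply Finset.sum_congr rfl
    intro i _
    rw [Real.norm_eq_abs, sq_abs]
    rfl
  have hψ0 : ∀ u, ψ u = 0 → u = 0 := by
    intro u hu
    have h1 := hψn u
    rw [hu, norm_zero] at h1
    have h2 : ∑ i, u i ^ 2 = 0 := by rw [← h1]; norm_num
    rw [Finset.sum_eq_zero_iff_of_nonneg (fun _ _ => sq_nonneg _)] at h2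
    ext i
    exact pow_eq_zero_iff two_ne_zero |>.1 (h2 i (Finset.mem_univ i))
  have hψi : Function.Injective ψ := by
    rw [injective_iff_map_eq_zero]
    exact hψ0
  have hψm : ∀ u, ψ u ∈ Wᗮ := fun u =>
    (b₁.repr.symm ((EuclideanSpace.equiv (Fin r) ℝ).symm u)).2
  have hgW : ∀ x ∈ Wᗮ, g x ∈ Wᗮ := by
    intro x hx
    rw [Submodule.mem_orthogonal] at hx ⊢
    intro w hw
    have h1 := hx w hw
    rw [← (hWm w).1 hw, LinearIsometryEquiv.inner_map_map]
    exact h1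
  let h : (Fin r → ℝ) →ₗ[ℝ] (Fin r → ℝ) :=
    { toFun := fun u i => ⟪(b₁ i : EuclideanSpace ℝ (Fin n)), g (ψ u)⟫_ℝ
      map_add' := by intro u w; ext i; simp [inner_add_right]
      map_smul' := by intro c u; ext i; simp [inner_smul_right] }
  have key : ∀ u, ψ (h u) = g (ψ u) := by
    intro u
    have h1 := b₁.sum_repr' ⟨g (ψ u), hgW _ (hψm u)⟩
    have h2 := congrArg Subtype.val h1
    rw [AddSubmonoidClass.coe_finsetSum] at h2
    rw [hψ]
    exact h2
  refine ⟨Λ', h, ψ, hp, hdens, hψi, key, ?_, ?_⟩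
  · intro u hu
    apply hψ0
    have h1 : ψ u ∈ W := by
      rw [hWm, ← key, hu]
    have h2 : ⟪ψ u, ψ u⟫_ℝ = 0 := Submodule.inner_right_of_mem_orthogonal h1 (hψm u)
    exact inner_self_eq_zero.1 h2
  · intro x hx
    have h1 := (hmem x).1 hx
    rw [hmem]
    have h2 := hg _ h1
    convert h2 using 1
    simp only [hob, Fintype.sum_sum_type, v, Sum.elim_inl, Sum.elim_inr, map_add, map_sum,
      map_smul]
    congr 1
    · rw [← hψ, key, hψ, map_sum]
      simp only [map_smul]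
    · apply Finset.sum_congr rfl
      intro j _
      rw [(hWm _).1 (b₂ j).2]

theorem aeval_comm {E F : Type*} [AddCommGroup E] [Module ℝ E] [AddCommGroup F] [Module ℝ F]
    (f : E →ₗ[ℝ] E) (g : F →ₗ[ℝ] F) (ψ : E →ₗ[ℝ] F) (h : ∀ u, ψ (f u) = g (ψ u)) (p : ℝ[X])
    (u : E) : ψ ((aeval f p) u) = (aeval g p) (ψ u) := by
  induction p using Polynomial.induction_on' with
  | add p q hp hq => rw [map_add, map_add, LinearMap.add_apply, LinearMap.add_apply, map_add, hp, hq]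
  | monomial k a =>
    rw [aeval_monomial, aeval_monomial, Module.End.mul_apply, Module.End.mul_apply,
      Module.algebraMap_end_apply, Module.algebraMap_end_apply, map_smul]
    congr 1
    induction k with
    | zero => rfl
    | succ k ih => rw [pow_succ', pow_succ', Module.End.mul_apply, Module.End.mul_apply, h, ih]

theorem base_cyclotomic {n : ℕ} {g : EuclideanSpace ℝ (Fin n) ≃ₗᵢ[ℝ] EuclideanSpace ℝ (Fin n)}
    {D : ℝ} (hb : Base g D) (d : ℕ) (hg : HasOrd g d) :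
    |(((cyclotomic d ℤ).eval 1 : ℤ) : ℝ)| ≤ D ^ Nat.totient d := by
  have hD := hb.1
  have h1 : (1 : ℝ) ≤ D ^ Nat.totient d := one_le_pow₀ hD
  by_cases hpp : ∃ p k : ℕ, p.Prime ∧ p ^ k = d
  · obtain ⟨p, k, hp, rfl⟩ := hpp
    rcases Nat.eq_zero_or_pos k with hk | hk
    · subst hk
      rw [pow_zero, cyclotomic_one]
      simp
      positivity
    · have h2 := hb.2 p k hp hk hg
      obtain ⟨j, rfl⟩ : ∃ j, k = j + 1 := ⟨k - 1, by omega⟩
      have : Fact p.Prime := ⟨hp⟩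
      rw [eval_one_cyclotomic_prime_pow]
      simpa using h2
  · have h3 : (cyclotomic d ℤ).eval 1 = 1 := by
      apply eval_one_cyclotomic_not_prime_pow
      intro p hp k hk
      exact hpp ⟨p, k, hp, hk⟩
    rw [h3]
    simpa using h1

/-- the inequality for `D ^ r` -/
theorem ineq_det {n r s : ℕ} (hrs : r + s = n)
    (Λ : Submodule ℤ (EuclideanSpace ℝ (Fin n))) (m : ℝ)
    (g : EuclideanSpace ℝ (Fin n) ≃ₗᵢ[ℝ] EuclideanSpace ℝ (Fin n)) (h : AutLat Λ m g s)
    (D : ℝ) (hb : Base g D) :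
    ∃ (L₁ : Submodule ℤ (Fin r → ℝ)) (L₂ : Submodule ℤ (Fin s → ℝ)),
      LatPack L₁ m ∧ LatPack L₂ m ∧
      densE Λ m ≤ D ^ r * (vB n / (vB r * vB s)) * (dens L₁ m * dens L₂ m) := by
  have hd := h.pack.disc
  have hz : IsZLattice ℝ Λ := ⟨h.pack.span_top⟩
  obtain ⟨Λ', f, ψ, hp, hdens, hψ, key, hfix, hinv⟩ := coords' Λ m h.pack g h.pres r s h.fixdim hrs
  obtain ⟨N, hN, hgN⟩ := finite_order Λ g h.pres
  have hpow : f ^ N = 1 := by
    have hk : ∀ (k : ℕ) (u), ψ ((f ^ k) u) = g^[k] (ψ u) := by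
      intro k
      induction k with
      | zero => intro u; rfl
      | succ k ih =>
        intro u
        rw [pow_succ', Module.End.mul_apply, Function.iterate_succ_apply', ← ih u, key]
    apply LinearMap.ext
    intro u
    apply hψ
    rw [hk, hgN]
    rfl
  obtain ⟨L₁, L₂, p1, p2, hle⟩ := split_det Λ' m hp f hfix N hN hpow hinv D
    (lt_of_lt_of_le one_pos hb.1) (by
      rintro d hd ⟨u, hu0, hu⟩
      apply base_cyclotomic hb
      refine ⟨ψ u, fun h0 => hu0 (hψ (by rw [h0, map_zero])), ?_⟩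
      rw [← aeval_comm f (g.toLinearEquiv.toLinearMap) ψ key, hu, map_zero])
  refine ⟨L₁, L₂, p1, p2, ?_⟩
  rw [← hdens, ← hrs]
  exact hle

/-- the inequality for `N ^ s` -/
theorem ineq_order {n r s : ℕ} (hrs : r + s = n)
    (Λ : Submodule ℤ (EuclideanSpace ℝ (Fin n))) (m : ℝ)
    (g : EuclideanSpace ℝ (Fin n) ≃ₗᵢ[ℝ] EuclideanSpace ℝ (Fin n)) (h : AutLat Λ m g s)
    (N : ℕ) (hN : 0 < N) (hgN : ∀ x, g^[N] x = x) :
    ∃ (L₁ : Submodule ℤ (Fin r → ℝ)) (L₂ : Submodule ℤ (Fin s → ℝ)),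
      LatPack L₁ m ∧ LatPack L₂ m ∧
      densE Λ m ≤ (N : ℝ) ^ s * (vB n / (vB r * vB s)) * (dens L₁ m * dens L₂ m) := by
  obtain ⟨Λ', f, ψ, hp, hdens, hψ, key, hfix, hinv⟩ := coords' Λ m h.pack g h.pres r s h.fixdim hrs
  have hpow : f ^ N = 1 := by
    have hk : ∀ (k : ℕ) (u), ψ ((f ^ k) u) = g^[k] (ψ u) := by
      intro k
      induction k with
      | zero => intro u; rfl
      | succ k ih =>
        intro u
        rw [pow_succ', Module.End.mul_apply, Function.iterate_succ_apply', ← ih u, key]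
    apply LinearMap.ext
    intro u
    apply hψ
    rw [hk, hgN]
    rfl
  obtain ⟨L₁, L₂, p1, p2, hle⟩ := split_order Λ' m hp f hfix N hN hpow hinv
  refine ⟨L₁, L₂, p1, p2, ?_⟩
  rw [← hdens, ← hrs]
  exact hle

end Pool.Agent.TH856.SP
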