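import Pool.Agent.TH856.SP.Poly

/-! The determinant of `1 - h` for an automorphism `h` of finite order of a lattice. -/

set_option autoImplicit false

namespace Pool.Agent.TH856.SP

open Polynomial Module

/-- Matrix version. -/
theorem matrix_det_le {r : ℕ} (A : Matrix (Fin r) (Fin r) ℤ) (N : ℕ) (hN : 0 < N) (hA : A ^ N = 1)
    (D : ℝ) (hD : 0 < D)
    (hS : ∀ d : ℕ, 0 < d → (∃ u : Fin r → ℝ, u ≠ 0 ∧
      (aeval (A.map (Int.cast : ℤ → ℝ)) (cyclotomic d ℝ)).mulVec u = 0) →
      |(((cyclotomic d ℤ).eval 1 : ℤ) : ℝ)| ≤ D ^ Nat.totient d) :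
    |((1 - A).det : ℝ)| ≤ D ^ r := by
  have hdeg : A.charpoly.natDegree = r := by
    rw [Matrix.charpoly_natDegree_eq_dim, Fintype.card_fin]
  have hev : A.charpoly.eval 1 = (1 - A).det := by
    rw [Matrix.eval_charpoly]
    simp
  rw [← hev]
  refine eval_one_le D hD r A.charpoly A.charpoly_monic hdeg ?_
  intro z hz
  set AC : Matrix (Fin r) (Fin r) ℂ := A.map (Int.castRingHom ℂ) with hAC
  have hroot : IsRoot AC.charpoly z := by
    rw [hAC, Matrix.charpoly_map, IsRoot.def, eval_map]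
    rw [aeval_def] at hz
    exact hz
  set f : Module.End ℂ (Fin r → ℂ) := Matrix.toLin' AC with hf
  have hev : Module.End.HasEigenvalue f z := by
    rw [Module.End.hasEigenvalue_iff_isRoot_charpoly, hf, Matrix.charpoly_toLin']
    exact hroot
  obtain ⟨w, hw⟩ := hev.exists_hasEigenvector
  have hw0 : w ≠ 0 := hw.2
  have hACN : AC ^ N = 1 := by
    rw [hAC, ← Matrix.map_pow, hA]
    ext i j
    simp [Matrix.one_apply]
  have hfN : f ^ N = 1 := by
    rw [hf, ← Matrix.toLin'_pow, hACN, Matrix.toLin'_one]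
    rfl
  have hzN : z ^ N = 1 := by
    have h1 := Module.End.aeval_apply_of_hasEigenvector (p := (X : ℂ[X]) ^ N) hw
    rw [map_pow, aeval_X, hfN, eval_pow, eval_X, Module.End.one_apply] at h1
    have h2 : (z ^ N - 1) • w = 0 := by rw [sub_smul, ← h1, one_smul, sub_self]
    rcases smul_eq_zero.1 h2 with h3 | h3
    · exact sub_eq_zero.1 h3
    · exact absurd h3 hw0
  have hord : 0 < orderOf z := orderOf_pos_iff.2 (isOfFinOrder_iff_pow_eq_one.2 ⟨N, hN, hzN⟩)
  refine ⟨orderOf z, hord, IsPrimitiveRoot.orderOf z, hS _ hord ?_⟩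
  set d := orderOf z with hd
  have hzr : (cyclotomic d ℂ).eval z = 0 := by
    exact (isRoot_cyclotomic_iff_charZero hord).2 (IsPrimitiveRoot.orderOf z)
  have h4 := Module.End.aeval_apply_of_hasEigenvector (p := cyclotomic d ℂ) hw
  rw [hzr, zero_smul] at h4
  -- the complex matrix `Φ_d(A)` is singular
  have h5 : (aeval AC (cyclotomic d ℂ)).mulVec w = 0 := by
    have e : aeval f (cyclotomic d ℂ) = Matrix.toLin' (aeval AC (cyclotomic d ℂ)) := by
      have := Polynomial.aeval_algHom_apply (Matrix.toLinAlgEquiv' (R := ℂ) (n := Fin r)).toAlgHom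
        AC (cyclotomic d ℂ)
      exact this
    rw [e, Matrix.toLin'_apply] at h4
    exact h4
  have h6 : (aeval AC (cyclotomic d ℂ)).det = 0 :=
    Matrix.exists_mulVec_eq_zero_iff.1 ⟨w, hw0, h5⟩
  have h7 : aeval AC (cyclotomic d ℂ) = (aeval A (cyclotomic d ℤ)).map (Int.castRingHom ℂ) := by
    rw [← map_cyclotomic_int d ℂ]
    have e0 := Polynomial.aeval_map_algebraMap ℂ AC (cyclotomic d ℤ)
    rw [algebraMap_int_eq] at e0
    rw [e0]
    have := Polynomial.aeval_algHom_apply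
      (((Int.castRingHom ℂ).mapMatrix : Matrix (Fin r) (Fin r) ℤ →+* Matrix (Fin r) (Fin r) ℂ).toIntAlgHom)
      A (cyclotomic d ℤ)
    exact this
  have h8 : (aeval A (cyclotomic d ℤ)).det = 0 := by
    rw [h7] at h6
    have h9 : ((aeval A (cyclotomic d ℤ)).map (Int.castRingHom ℂ)).det
        = (((aeval A (cyclotomic d ℤ)).det : ℤ) : ℂ) := by
      have := (RingHom.map_det (Int.castRingHom ℂ) (aeval A (cyclotomic d ℤ))).symm
      exact this
    rw [h9] at h6
    exact_mod_cast h6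
  have h7' : aeval (A.map (Int.cast : ℤ → ℝ)) (cyclotomic d ℝ)
      = (aeval A (cyclotomic d ℤ)).map (Int.castRingHom ℝ) := by
    rw [← map_cyclotomic_int d ℝ]
    have e0 := Polynomial.aeval_map_algebraMap ℝ (A.map (Int.cast : ℤ → ℝ)) (cyclotomic d ℤ)
    rw [algebraMap_int_eq] at e0
    rw [e0]
    have := Polynomial.aeval_algHom_apply
      (((Int.castRingHom ℝ).mapMatrix : Matrix (Fin r) (Fin r) ℤ →+* Matrix (Fin r) (Fin r) ℝ).toIntAlgHom)
      A (cyclotomic d ℤ)
    exact this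
  have h10 : (aeval (A.map (Int.cast : ℤ → ℝ)) (cyclotomic d ℝ)).det = 0 := by
    rw [h7']
    have := (RingHom.map_det (Int.castRingHom ℝ) (aeval A (cyclotomic d ℤ))).symm
    refine this.trans ?_
    rw [h8]
    simp
  obtain ⟨u, hu0, hu⟩ := Matrix.exists_mulVec_eq_zero_iff.2 h10
  exact ⟨u, hu0, hu⟩

end Pool.Agent.TH856.SP
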