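import Pool.Agent.TH856.SP.Aut

/-! Exponents for lattice packings with an automorphism. -/

set_option autoImplicit false

namespace Pool.Agent.TH856.SP

open Polynomial Module MeasureTheory Submodule Filter
open Pool.Agent.W967.LI

/-- From the inequality for densities to exponents, uniformly in the index `I`. -/
theorem expo (c : ℝ) (hc : 0 ≤ c) (hv : ValidExp c) (ε : ℝ) (hε : 0 < ε) :
    ∃ n0 : ℕ, ∀ n r s : ℕ, 0 < r → 0 < s → r + s = n → n0 ≤ n → ∀ (I δ m : ℝ), 0 ≤ I →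
      ∀ (L₁ : Submodule ℤ (Fin r → ℝ)) (L₂ : Submodule ℤ (Fin s → ℝ)), LatPack L₁ m →
      LatPack L₂ m → δ ≤ I * (vB n / (vB r * vB s)) * (dens L₁ m * dens L₂ m) →
      δ ≤ I * (2 : ℝ) ^ (-((c + H2 (s / n) / 2 - ε) * n)) := by
  obtain ⟨C, hC, hCb⟩ := valid_uniform c hc hv
  have hx : |(2 : ℝ) ^ (-ε)| < 1 := by
    rw [abs_of_pos (by positivity)]
    exact Real.rpow_lt_one_of_one_lt_of_neg (by norm_num) (by linarith)
  have h1 := tendsto_pow_const_mul_const_pow_of_abs_lt_one 2 hx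
  have h2 : ∀ᶠ n : ℕ in atTop, (n : ℝ) ^ 2 * ((2 : ℝ) ^ (-ε)) ^ n < 1 / (9 * C ^ 2) :=
    (tendsto_order.1 h1).2 _ (by positivity)
  obtain ⟨n0, hn0⟩ := eventually_atTop.1 h2
  refine ⟨n0, fun n r s hr hs hrsn hrs I δ m hI L₁ L₂ p1 p2 hle => ?_⟩
  subst hrsn
  have hr' : (0 : ℝ) < r := by exact_mod_cast hr
  have hs' : (0 : ℝ) < s := by exact_mod_cast hs
  have b1 := hCb r hr L₁ m p1
  have b2 := hCb s hs L₂ m p2
  have b4 := ratio_le hr hs
  rw [sqrt_pow_eq hr hs] at b4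
  have v1 := vB_pos r
  have v2 := vB_pos s
  have v := vB_pos (r + s)
  have n1 := dens_nonneg L₁ m p1
  have n2 := dens_nonneg L₂ m p2
  have b5 := hn0 (r + s) hrs
  have b6 : 9 * (r : ℝ) * s * C ^ 2 ≤ (2 : ℝ) ^ (ε * (r + s)) := by
    have e1 : ((2 : ℝ) ^ (-ε)) ^ (r + s) = ((2 : ℝ) ^ (ε * (r + s)))⁻¹ := by
      rw [← Real.rpow_natCast, ← Real.rpow_mul (by norm_num), ← Real.rpow_neg (by norm_num)]
      congr 1
      push_cast
      ring
    rw [e1, lt_div_iff₀ (by positivity), mul_assoc, inv_mul_eq_div, ← mul_div_assoc,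
      div_lt_one (by positivity)] at b5
    refine le_trans ?_ b5.le
    push_cast
    have : (r : ℝ) * s ≤ (r + s) ^ 2 := by nlinarith
    have h9 : 0 < C ^ 2 := by positivity
    nlinarith
  have hg : gain 1 ((r : ℝ) / (r + s)) = H2 ((s : ℝ) / ((r + s : ℕ) : ℝ)) / 2 := by
    unfold gain H2
    rw [Real.logb_one, mul_zero, sub_zero]
    congr 2
    rw [← Real.binEntropy_one_sub]
    congr 1
    push_cast
    field_simp
    ring
  calc δ ≤ I * (vB (r + s) / (vB r * vB s)) * (dens L₁ m * dens L₂ m) := hle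
    _ ≤ I * (9 * r * s * (2 : ℝ) ^ (-((gain 1 (r / (r + s))) * (r + s))))
        * ((C * (2 : ℝ) ^ (-(c * r))) * (C * (2 : ℝ) ^ (-(c * s)))) := by
        apply mul_le_mul
        · exact mul_le_mul_of_nonneg_left b4 hI
        · exact mul_le_mul b1 b2 n2 (by positivity)
        · positivity
        · positivity
    _ = I * ((9 * (r : ℝ) * s * C ^ 2) * (
        (2 : ℝ) ^ (-((gain 1 (r / (r + s))) * (r + s)))
        * (2 : ℝ) ^ (-(c * r)) * (2 : ℝ) ^ (-(c * s)))) := by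
        ring
    _ = I * ((9 * (r : ℝ) * s * C ^ 2) * (2 : ℝ) ^ (-((c + gain 1 (r / (r + s))) * (r + s)))) := by
        rw [← Real.rpow_add (by norm_num), ← Real.rpow_add (by norm_num)]
        congr 3
        ring
    _ ≤ I * ((2 : ℝ) ^ (ε * (r + s)) * (2 : ℝ) ^ (-((c + gain 1 (r / (r + s))) * (r + s)))) := by
        gcongr
    _ = _ := by
        rw [← Real.rpow_add (by norm_num), hg]
        congr 2
        push_cast
        ring

end Pool.Agent.TH856.SP
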