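import Pool.Agent.TH856.SP.Det
import Pool.Agent.W967.LI.Dens

/-! The determinant of `1 - h` for an automorphism `h` of finite order of a lattice, and the
splitting of a lattice with an automorphism. -/

set_option autoImplicit false

namespace Pool.Agent.TH856.SP

open Polynomial Module MeasureTheory
open Pool.Agent.W967.LI

/-- `|det (1 - h)| ≤ D ^ r` for an automorphism `h` of finite order of a lattice of `ℝ^r`, if
`|Φ_d(1)| ≤ D ^ φ(d)` whenever `Φ_d(h)` is singular. -/
theorem lat_det_le {r : ℕ} (L : Submodule ℤ (Fin r → ℝ)) [DiscreteTopology L] [IsZLattice ℝ L]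
    (h : (Fin r → ℝ) →ₗ[ℝ] (Fin r → ℝ)) (hL : ∀ u ∈ L, h u ∈ L) (N : ℕ) (hN : 0 < N)
    (hpow : h ^ N = 1) (D : ℝ) (hD : 0 < D)
    (hS : ∀ d : ℕ, 0 < d → (∃ u : Fin r → ℝ, u ≠ 0 ∧ (aeval h (cyclotomic d ℝ)) u = 0) →
      |(((cyclotomic d ℤ).eval 1 : ℤ) : ℝ)| ≤ D ^ Nat.totient d) :
    |LinearMap.det (1 - h)| ≤ D ^ r := by
  have hcard : finrank ℤ L = r := by
    rw [ZLattice.rank ℝ L]; simp
  let b : Basis (Fin r) ℤ L := Module.finBasisOfFinrankEq ℤ L hcard
  let B : Basis (Fin r) ℝ (Fin r → ℝ) := b.ofZLatticeBasis ℝ L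
  let hZ : L →ₗ[ℤ] L := (h.restrictScalars ℤ).restrict hL
  have hZv : ∀ x : L, ((hZ x : L) : Fin r → ℝ) = h x := fun x => rfl
  set A : Matrix (Fin r) (Fin r) ℤ := LinearMap.toMatrix b b hZ with hA
  have key : LinearMap.toMatrix B B h = A.map (Int.cast : ℤ → ℝ) := by
    ext i j
    rw [Matrix.map_apply, hA, LinearMap.toMatrix_apply, LinearMap.toMatrix_apply]
    have e1 : h (B j) = ((hZ (b j) : L) : Fin r → ℝ) := by
      rw [hZv, Basis.ofZLatticeBasis_apply]
    rw [e1]
    exact b.ofZLatticeBasis_repr_apply ℝ L (hZ (b j)) i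
  have hZN : hZ ^ N = 1 := by
    have hk : ∀ (k : ℕ) (x : L), (((hZ ^ k) x : L) : Fin r → ℝ) = (h ^ k) x := by
      intro k
      induction k with
      | zero => intro x; rfl
      | succ k ih =>
        intro x
        rw [pow_succ', pow_succ', Module.End.mul_apply, Module.End.mul_apply, hZv, ih]
    apply LinearMap.ext
    intro x
    apply Subtype.ext
    rw [hk, hpow]
    rfl
  have hAN : A ^ N = 1 := by
    have : (LinearMap.toMatrixAlgEquiv b) (hZ ^ N) = 1 := by rw [hZN, map_one]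
    rw [map_pow] at this
    exact this
  have hdet : LinearMap.det (1 - h) = (((1 - A).det : ℤ) : ℝ) := by
    rw [← LinearMap.det_toMatrix B, map_sub, key]
    have h1 : LinearMap.toMatrix B B (1 : (Fin r → ℝ) →ₗ[ℝ] (Fin r → ℝ)) = 1 :=
      LinearMap.toMatrix_one B
    rw [h1]
    have h2 := (RingHom.map_det (Int.castRingHom ℝ) (1 - A)).symm
    have h3 : ((Int.castRingHom ℝ).mapMatrix (1 - A) : Matrix (Fin r) (Fin r) ℝ)
        = 1 - A.map (Int.cast : ℤ → ℝ) := by
      rw [map_sub, map_one]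
      rfl
    rw [h3] at h2
    exact h2
  rw [hdet]
  refine matrix_det_le A N hN hAN D hD ?_
  rintro d hd ⟨u, hu0, hu⟩
  refine hS d hd ⟨B.equivFun.symm u, ?_, ?_⟩
  · intro h0
    apply hu0
    have := congrArg B.equivFun h0
    rw [LinearEquiv.apply_symm_apply, map_zero] at this
    exact this
  · have e2 : aeval (A.map (Int.cast : ℤ → ℝ)) (cyclotomic d ℝ)
        = LinearMap.toMatrix B B (aeval h (cyclotomic d ℝ)) := by
      rw [← key]
      exact Polynomial.aeval_algHom_apply (LinearMap.toMatrixAlgEquiv B).toAlgHom h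
        (cyclotomic d ℝ)
    rw [e2] at hu
    have e3 := LinearMap.toMatrix_mulVec_repr B B (aeval h (cyclotomic d ℝ)) (B.equivFun.symm u)
    have e4 : (B.repr (B.equivFun.symm u) : Fin r → ℝ) = u := by
      have := B.equivFun.apply_symm_apply u
      rwa [Basis.equivFun_apply] at this
    rw [e4, hu] at e3
    apply B.equivFun.injective
    rw [map_zero, Basis.equivFun_apply]
    exact e3.symm

/-- The inequality for the densities from the inequality for the covolumes. -/
theorem dens_of_covol {r s : ℕ} (Λ : Submodule ℤ (Fin r ⊕ Fin s → ℝ)) (m : ℝ)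
    (hΛ : LatPack Λ m) (L₁ : Submodule ℤ (Fin r → ℝ)) (L₂ : Submodule ℤ (Fin s → ℝ))
    (d1 : DiscreteTopology L₁) (z1 : IsZLattice ℝ L₁) (d2 : DiscreteTopology L₂)
    (z2 : IsZLattice ℝ L₂)
    (m1 : ∀ u, u ∈ L₁ ↔ Sum.elim u (fun _ => 0) ∈ Λ)
    (m2 : ∀ v, v ∈ L₂ ↔ Sum.elim (fun _ => 0) v ∈ Λ) (I : ℝ) (hI : 0 < I)
    (hc : ZLattice.covolume L₁ * ZLattice.covolume L₂ ≤ I * ZLattice.covolume Λ) :
    LatPack L₁ m ∧ LatPack L₂ m ∧
      dens Λ m ≤ I * (vB (r + s) / (vB r * vB s)) * (dens L₁ m * dens L₂ m) := by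
  have hm := hΛ.pos
  have p1 : LatPack L₁ m := by
    refine ⟨d1, z1.span_top, hm, fun u hu hu0 => ?_⟩
    have h1 := hΛ.sep _ ((m1 u).1 hu) (by
      intro h0
      apply hu0
      ext i
      exact congrFun h0 (Sum.inl i))
    simpa [Fintype.sum_sum_type] using h1
  have p2 : LatPack L₂ m := by
    refine ⟨d2, z2.span_top, hm, fun u hu hu0 => ?_⟩
    have h1 := hΛ.sep _ ((m2 u).1 hu) (by
      intro h0
      apply hu0
      ext i
      exact congrFun h0 (Sum.inr i))
    simpa [Fintype.sum_sum_type] using h1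
  refine ⟨p1, p2, ?_⟩
  have c1 := covol_pos p1
  have c2 := covol_pos p2
  have c := covol_pos hΛ
  have v1 := vB_pos r
  have v2 := vB_pos s
  have v := vB_pos (r + s)
  unfold dens
  simp only [Fintype.card_sum, Fintype.card_fin]
  rw [div_le_iff₀ c]
  have e : I * (vB (r + s) / (vB r * vB s))
      * (vB r * (m / 2) ^ r / ZLattice.covolume L₁ * (vB s * (m / 2) ^ s / ZLattice.covolume L₂))
      * ZLattice.covolume Λ
      = vB (r + s) * (m / 2) ^ (r + s) * ((I * ZLattice.covolume Λ)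
        / (ZLattice.covolume L₁ * ZLattice.covolume L₂)) := by
    field_simp
    ring
  rw [e]
  have h1 : 1 ≤ (I * ZLattice.covolume Λ)
        / (ZLattice.covolume L₁ * ZLattice.covolume L₂) := by
    rw [le_div_iff₀ (by positivity), one_mul]
    exact hc
  calc vB (r + s) * (m / 2) ^ (r + s) = vB (r + s) * (m / 2) ^ (r + s) * 1 := by ring
    _ ≤ _ := mul_le_mul_of_nonneg_left h1 (by positivity)

end Pool.Agent.TH856.SP
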