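import Pool.Agent.TH856.SP.Stmt

/-! Proofs of the parts (1)-(3). -/

set_option autoImplicit false

namespace Pool.Agent.TH856.SP

open Polynomial Module MeasureTheory Submodule Filter
open Pool.Agent.W967.LI

theorem fin_of {n r s : ℕ} (Λ : Submodule ℤ (EuclideanSpace ℝ (Fin n))) (m : ℝ)
    (I : ℝ) (h : ∃ (L₁ : Submodule ℤ (Fin r → ℝ)) (L₂ : Submodule ℤ (Fin s → ℝ)),
      LatPack L₁ m ∧ LatPack L₂ m ∧
      densE Λ m ≤ I * (vB n / (vB r * vB s)) * (dens L₁ m * dens L₂ m)) :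
    ∃ (L₁ : Submodule ℤ (EuclideanSpace ℝ (Fin r))) (L₂ : Submodule ℤ (EuclideanSpace ℝ (Fin s))),
      LatPackE L₁ m ∧ LatPackE L₂ m ∧
      densE Λ m ≤ I * (vB n / (vB r * vB s)) * (densE L₁ m * densE L₂ m) := by
  obtain ⟨L₁, L₂, p1, p2, hle⟩ := h
  obtain ⟨L₁', q1, d1⟩ := transfer' L₁ m p1
  obtain ⟨L₂', q2, d2⟩ := transfer' L₂ m p2
  exact ⟨L₁', L₂', q1, q2, by rw [d1, d2]; exact hle⟩

theorem finiteIneq : FiniteIneq := by
  intro n r s Λ m g N D hr hs hrs h hN hgN hb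
  rcases le_total (D ^ r) ((N : ℝ) ^ s) with hle | hle
  · rw [min_eq_left hle]
    exact fin_of Λ m _ (ineq_det hrs Λ m g h D hb)
  · rw [min_eq_right hle]
    exact fin_of Λ m _ (ineq_order hrs Λ m g h N hN hgN)

theorem exponents' : Exponents := by
  intro c ε hc hv hε
  obtain ⟨n0, hn0⟩ := expo c hc ((validE_iff c).1 hv) ε hε
  refine ⟨n0, fun n r s Λ m g N D hn hr hs hrs h hN hgN hb => ?_⟩
  have hD : 0 < D := lt_of_lt_of_le one_pos hb.1
  rcases le_total (D ^ r) ((N : ℝ) ^ s) with hle | hle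
  · rw [min_eq_left hle]
    obtain ⟨L₁, L₂, p1, p2, hl⟩ := ineq_det hrs Λ m g h D hb
    exact hn0 n r s hr hs hrs hn _ _ m (by positivity) L₁ L₂ p1 p2 hl
  · rw [min_eq_right hle]
    obtain ⟨L₁, L₂, p1, p2, hl⟩ := ineq_order hrs Λ m g h N hN hgN
    exact hn0 n r s hr hs hrs hn _ _ m (by positivity) L₁ L₂ p1 p2 hl

section
variable {n : ℕ} (g : EuclideanSpace ℝ (Fin n) ≃ₗᵢ[ℝ] EuclideanSpace ℝ (Fin n))

theorem pow_eq_iterate (k : ℕ) (x : EuclideanSpace ℝ (Fin n)) :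
    ((g.toLinearEquiv.toLinearMap) ^ k) x = g^[k] x := by
  induction k with
  | zero => rfl
  | succ k ih =>
    rw [pow_succ', Module.End.mul_apply, Function.iterate_succ_apply', ih]
    rfl

theorem aeval_X_pow_sub_one (N : ℕ) (x : EuclideanSpace ℝ (Fin n)) :
    (aeval (g.toLinearEquiv.toLinearMap) (X ^ N - 1 : ℝ[X])) x = g^[N] x - x := by
  rw [map_sub, map_pow, aeval_X, map_one, LinearMap.sub_apply, pow_eq_iterate]
  rfl

/-- the order of an eigenvalue divides the order of `g` -/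
theorem hasOrd_dvd {d : ℕ} (hd : HasOrd g d) {N : ℕ} (hN : 0 < N) (hgN : ∀ x, g^[N] x = x) :
    d ∣ N := by
  obtain ⟨x, hx0, hx⟩ := hd
  by_contra hdN
  have hcop : IsCoprime (cyclotomic d ℚ) (X ^ N - 1) := by
    rw [← prod_cyclotomic_eq_X_pow_sub_one hN]
    apply IsCoprime.prod_right
    intro e he
    apply cyclotomic.isCoprime_rat
    rintro rfl
    exact hdN (Nat.dvd_of_mem_divisors he)
  have hcop' : IsCoprime (cyclotomic d ℝ) (X ^ N - 1) := by
    have := hcop.map (mapRingHom (algebraMap ℚ ℝ))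
    simpa using this
  obtain ⟨a, b, hab⟩ := hcop'
  apply hx0
  have h1 : (aeval (g.toLinearEquiv.toLinearMap) (a * cyclotomic d ℝ + b * (X ^ N - 1))) x = x := by
    rw [hab, map_one]; rfl
  rw [map_add, map_mul, map_mul, LinearMap.add_apply, Module.End.mul_apply, Module.End.mul_apply,
    hx, aeval_X_pow_sub_one, hgN, sub_self, map_zero, map_zero, add_zero] at h1
  exact h1.symm

/-- a vector annihilated by `Φ_d(g)` has period `d` -/
theorem iterate_of_cyclotomic {d : ℕ} {x : EuclideanSpace ℝ (Fin n)}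
    (hx : (aeval (g.toLinearEquiv.toLinearMap) (cyclotomic d ℝ)) x = 0) : g^[d] x = x := by
  obtain ⟨q, hq⟩ := cyclotomic.dvd_X_pow_sub_one d ℝ
  have h1 := aeval_X_pow_sub_one g d x
  rw [hq, mul_comm, map_mul, Module.End.mul_apply, hx, map_zero] at h1
  exact (sub_eq_zero.1 h1.symm)

theorem aeval_fixed {x : EuclideanSpace ℝ (Fin n)} (hx : g x = x) (p : ℝ[X]) :
    (aeval (g.toLinearEquiv.toLinearMap) p) x = p.eval 1 • x := by
  have h := aeval_comm (LinearMap.id : ℝ →ₗ[ℝ] ℝ) (g.toLinearEquiv.toLinearMap)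
    (LinearMap.toSpanSingleton ℝ _ x) (by
      intro u
      simp only [LinearMap.id_apply, LinearMap.toSpanSingleton_apply]
      rw [map_smul]
      congr 1
      exact hx.symm) p 1
  simp only [LinearMap.toSpanSingleton_apply, one_smul] at h
  rw [← h]
  congr 1
  have h2 := Module.End.aeval_apply_of_hasEigenvector (f := (LinearMap.id : ℝ →ₗ[ℝ] ℝ)) (μ := 1)
    (x := 1) (p := p) ⟨by simp, one_ne_zero⟩
  simpa using h2

/-- if all vectors of period at most `M` are fixed, the orders of the eigenvalues which are prime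
powers are larger than `M` -/
theorem hasOrd_gt {M : ℕ} (hM : ∀ d : ℕ, 0 < d → d ≤ M → ∀ x, g^[d] x = x → g x = x)
    {p k : ℕ} (hp : p.Prime) (hk : 0 < k) (h : HasOrd g (p ^ k)) : M < p ^ k := by
  by_contra hcon
  rw [not_lt] at hcon
  obtain ⟨x, hx0, hx⟩ := h
  have h1 := hM (p ^ k) (pow_pos hp.pos k) hcon x (iterate_of_cyclotomic g hx)
  rw [aeval_fixed g h1] at hx
  obtain ⟨j, rfl⟩ : ∃ j, k = j + 1 := ⟨k - 1, by omega⟩
  have : Fact p.Prime := ⟨hp⟩
  rw [eval_one_cyclotomic_prime_pow] at hx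
  rcases smul_eq_zero.1 hx with h2 | h2
  · exact hp.ne_zero (by exact_mod_cast h2)
  · exact hx0 h2

theorem base_prime {p : ℕ} (hp : p.Prime) (hg : ∀ x, g^[p] x = x) :
    Base g ((p : ℝ) ^ (1 / ((p : ℝ) - 1))) := by
  have hp2 := hp.two_le
  have hp2' : (2 : ℝ) ≤ p := by exact_mod_cast hp2
  have hpm : (0 : ℝ) < (p : ℝ) - 1 := by linarith
  refine ⟨Real.one_le_rpow (by linarith) (by positivity), fun q k hq hk h => ?_⟩
  have h1 := hasOrd_dvd g h hp.pos hg
  have h2 : q ^ k = p := by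
    rcases (Nat.dvd_prime hp).1 h1 with h3 | h3
    · exfalso
      rcases Nat.pow_eq_one.1 h3 with h4 | h4
      · exact hq.one_lt.ne' h4
      · exact hk.ne' h4
    · exact h3
  have h3 : q = p := (Nat.prime_dvd_prime_iff_eq hq hp).1 (h2 ▸ dvd_pow_self q hk.ne')
  rw [h2, h3, Nat.totient_prime hp, ← Real.rpow_natCast, ← Real.rpow_mul (by linarith),
    Nat.cast_sub hp.one_le, Nat.cast_one, one_div, inv_mul_cancel₀ hpm.ne', Real.rpow_one]

end

theorem primeIneq : PrimeIneq := by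
  intro n r s Λ m g p hr hs hrs h hp hg
  have hp2' : (2 : ℝ) ≤ p := by exact_mod_cast hp.two_le
  have h1 := finiteIneq n r s Λ m g p _ hr hs hrs h hp.pos hg (base_prime g hp hg)
  have e : ((p : ℝ) ^ (1 / ((p : ℝ) - 1))) ^ r = (p : ℝ) ^ ((r : ℝ) / ((p : ℝ) - 1)) := by
    rw [← Real.rpow_natCast, ← Real.rpow_mul (by linarith)]
    congr 1
    ring
  rw [e] at h1
  exact h1

end Pool.Agent.TH856.SP
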