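import Mathlib

/-! Integer polynomials all whose roots are roots of unity: bounds for the value at `1`. -/

set_option autoImplicit false

namespace Pool.Agent.TH856.SP

open Polynomial

/-- If every complex root of the monic integer polynomial `P` is a primitive `d`-th root of unity
with `|Φ_d(1)| ≤ D ^ φ(d)` then `|P(1)| ≤ D ^ deg P`. -/
theorem eval_one_le (D : ℝ) (hD : 0 < D) : ∀ (k : ℕ) (P : ℤ[X]), P.Monic → P.natDegree = k →
    (∀ z : ℂ, aeval z P = 0 → ∃ d : ℕ, 0 < d ∧ IsPrimitiveRoot z d ∧
      |(((cyclotomic d ℤ).eval 1 : ℤ) : ℝ)| ≤ D ^ Nat.totient d) →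
    |((P.eval 1 : ℤ) : ℝ)| ≤ D ^ k := by
  intro k
  induction k using Nat.strong_induction_on with
  | _ k ih =>
  intro P hP hk hroots
  rcases Nat.eq_zero_or_pos k with h0 | hpos
  · subst h0
    have : P = 1 := hP.natDegree_eq_zero.1 hk
    subst this
    simp
  · obtain ⟨z, hz⟩ := Complex.exists_root (f := P.map (algebraMap ℤ ℂ)) (by
      rw [hP.degree_map, Polynomial.degree_eq_natDegree hP.ne_zero, hk]
      exact_mod_cast hpos)
    have hz' : aeval z P = 0 := by
      rw [IsRoot.def, eval_map] at hz
      rw [aeval_def]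
      exact hz
    obtain ⟨d, hd, hzd, hle⟩ := hroots z hz'
    have hdvd : cyclotomic d ℤ ∣ P := by
      rw [cyclotomic_eq_minpoly hzd hd]
      exact minpoly.isIntegrallyClosed_dvd (hzd.isIntegral hd) hz'
    obtain ⟨Q, hQ⟩ := hdvd
    have hcm := cyclotomic.monic d ℤ
    have hQm : Q.Monic := by
      rw [hQ] at hP
      exact hcm.of_mul_monic_left hP
    have hk2 : Nat.totient d + Q.natDegree = k := by
      have := congrArg natDegree hQ
      rw [hcm.natDegree_mul hQm, natDegree_cyclotomic, hk] at this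
      omega
    have htot : 0 < Nat.totient d := Nat.totient_pos.2 hd
    have h1 := ih Q.natDegree (by omega) Q hQm rfl (fun w hw => hroots w (by
      rw [hQ, map_mul, hw, mul_zero]))
    rw [hQ, eval_mul, Int.cast_mul, abs_mul, ← hk2, pow_add]
    exact mul_le_mul hle h1 (abs_nonneg _) (by positivity)

end Pool.Agent.TH856.SP
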