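import Pool.Agent.TH856.SP.Expo

/-! The parts of the statement of `MP_dbfdb2_gt.PrimeOrderAutomorphisms`. -/

set_option autoImplicit false

open Filter

namespace Pool.Agent.TH856.SP

open Pool.Agent.W967.LI

/-- (1) the inequality for the densities, in every dimension -/
def FiniteIneq : Prop :=
  ∀ (n r s : ℕ) (Λ : Submodule ℤ (EuclideanSpace ℝ (Fin n))) (m : ℝ)
    (g : EuclideanSpace ℝ (Fin n) ≃ₗᵢ[ℝ] EuclideanSpace ℝ (Fin n)) (N : ℕ) (D : ℝ),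
    0 < r → 0 < s → r + s = n → AutLat Λ m g s → 0 < N → (∀ x, g^[N] x = x) → Base g D →
    ∃ (L₁ : Submodule ℤ (EuclideanSpace ℝ (Fin r)))
      (L₂ : Submodule ℤ (EuclideanSpace ℝ (Fin s))), LatPackE L₁ m ∧ LatPackE L₂ m ∧
      densE Λ m ≤ min (D ^ r) ((N : ℝ) ^ s) * (vB n / (vB r * vB s)) *
        (densE L₁ m * densE L₂ m)

/-- (2) automorphisms of prime order -/
def PrimeIneq : Prop :=
  ∀ (n r s : ℕ) (Λ : Submodule ℤ (EuclideanSpace ℝ (Fin n))) (m : ℝ)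
    (g : EuclideanSpace ℝ (Fin n) ≃ₗᵢ[ℝ] EuclideanSpace ℝ (Fin n)) (p : ℕ),
    0 < r → 0 < s → r + s = n → AutLat Λ m g s → p.Prime → (∀ x, g^[p] x = x) →
    ∃ (L₁ : Submodule ℤ (EuclideanSpace ℝ (Fin r)))
      (L₂ : Submodule ℤ (EuclideanSpace ℝ (Fin s))), LatPackE L₁ m ∧ LatPackE L₂ m ∧
      densE Λ m ≤ min ((p : ℝ) ^ ((r : ℝ) / ((p : ℝ) - 1))) ((p : ℝ) ^ s) *
        (vB n / (vB r * vB s)) * (densE L₁ m * densE L₂ m)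

/-- (3) exponents, uniformly in the automorphism -/
def Exponents : Prop :=
  ∀ c ε : ℝ, 0 ≤ c → ValidExpE c → 0 < ε → ∃ n0 : ℕ,
    ∀ (n r s : ℕ) (Λ : Submodule ℤ (EuclideanSpace ℝ (Fin n))) (m : ℝ)
      (g : EuclideanSpace ℝ (Fin n) ≃ₗᵢ[ℝ] EuclideanSpace ℝ (Fin n)) (N : ℕ) (D : ℝ), n0 ≤ n →
      0 < r → 0 < s → r + s = n → AutLat Λ m g s → 0 < N → (∀ x, g^[N] x = x) → Base g D →
      densE Λ m ≤ min (D ^ r) ((N : ℝ) ^ s) * (2 : ℝ) ^ (-((c + H2 (s / n) / 2 - ε) * n))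

/-- (4) all vectors of small period are fixed -/
def LargePeriods : Prop :=
  ∀ δ : ℝ, 0 < δ → ∃ (M : ℕ) (η : ℝ), 0 < η ∧ ∀ c : ℝ, 0 ≤ c → ValidExpE c → ∃ n0 : ℕ,
    ∀ (n s : ℕ) (Λ : Submodule ℤ (EuclideanSpace ℝ (Fin n))) (m : ℝ)
      (g : EuclideanSpace ℝ (Fin n) ≃ₗᵢ[ℝ] EuclideanSpace ℝ (Fin n)), n0 ≤ n →
      AutLat Λ m g s → (∀ d : ℕ, 0 < d → d ≤ M → ∀ x, g^[d] x = x → g x = x) →
      δ * n ≤ s → s ≤ (1 - δ) * n →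
      densE Λ m ≤ (2 : ℝ) ^ (-((c + η) * n))

/-- (5) few fixed vectors -/
def FewFixed : Prop :=
  ∀ δ c : ℝ, 0 < δ → 0 ≤ c → ValidExpE c → ∃ n0 : ℕ,
    ∀ (n s : ℕ) (Λ : Submodule ℤ (EuclideanSpace ℝ (Fin n))) (m : ℝ)
      (g : EuclideanSpace ℝ (Fin n) ≃ₗᵢ[ℝ] EuclideanSpace ℝ (Fin n)) (N : ℕ), n0 ≤ n →
      AutLat Λ m g s → 2 ≤ N → (∀ x, g^[N] x = x) →
      δ * n ≤ s → s * N ^ 2 ≤ n →
      densE Λ m ≤ (2 : ℝ) ^ (-((c + δ / 2) * n))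

/-- (6) unconditional numerical bounds -/
def Numerical : Prop :=
  (∃ n0 : ℕ, ∀ (n s : ℕ) (Λ : Submodule ℤ (EuclideanSpace ℝ (Fin n))) (m : ℝ)
      (g : EuclideanSpace ℝ (Fin n) ≃ₗᵢ[ℝ] EuclideanSpace ℝ (Fin n)), n0 ≤ n →
      AutLat Λ m g s → (∀ d : ℕ, 0 < d → d ≤ 4 → ∀ x, g^[d] x = x → g x = x) →
      (1 / 3 : ℝ) * n ≤ s → s ≤ (7 / 8 : ℝ) * n →
      densE Λ m ≤ (2 : ℝ) ^ (-(67 / 100 * n : ℝ))) ∧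
  ∃ n0 : ℕ, ∀ (n s : ℕ) (Λ : Submodule ℤ (EuclideanSpace ℝ (Fin n))) (m : ℝ)
      (g : EuclideanSpace ℝ (Fin n) ≃ₗᵢ[ℝ] EuclideanSpace ℝ (Fin n)), n0 ≤ n →
      AutLat Λ m g s → (∀ d : ℕ, 0 < d → d ≤ 16 → ∀ x, g^[d] x = x → g x = x) →
      (1 / 8 : ℝ) * n ≤ s → s ≤ (7 / 8 : ℝ) * n →
      densE Λ m ≤ (2 : ℝ) ^ (-(645 / 1000 * n : ℝ))

end Pool.Agent.TH856.SP
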