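import Pool.Agent.TH856.SP.Lat

/-! The two splittings of a lattice with an automorphism `(u, v) ↦ (h u, v)`. -/

set_option autoImplicit false

namespace Pool.Agent.TH856.SP

open Polynomial Module MeasureTheory Submodule
open Pool.Agent.W967.LI

/-- exchange of the two blocks of coordinates -/
theorem swap_pack {r s : ℕ} (Λ : Submodule ℤ (Fin r ⊕ Fin s → ℝ)) (m : ℝ) (h : LatPack Λ m) :
    ∃ Λ' : Submodule ℤ (Fin s ⊕ Fin r → ℝ),
      (∀ y, y ∈ Λ' ↔ (fun i => y (Sum.swap i)) ∈ Λ) ∧ LatPack Λ' m ∧ dens Λ' m = dens Λ m := by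
  have hd := h.disc
  have hz : IsZLattice ℝ Λ := ⟨h.span_top⟩
  let e : (Fin s ⊕ Fin r → ℝ) ≃L[ℝ] (Fin r ⊕ Fin s → ℝ) :=
    (LinearEquiv.funCongrLeft ℝ ℝ (Equiv.sumComm (Fin r) (Fin s))).toContinuousLinearEquiv
  have he : ∀ y, e y = fun i => y (Sum.swap i) := fun y => rfl
  have hmp : MeasurePreserving e volume volume := by
    have h1 := volume_measurePreserving_piCongrLeft (fun _ : Fin r ⊕ Fin s => ℝ)
      (Equiv.sumComm (Fin s) (Fin r))
    have h2 : (e : (Fin s ⊕ Fin r → ℝ) → (Fin r ⊕ Fin s → ℝ))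
        = MeasurableEquiv.piCongrLeft (fun _ : Fin r ⊕ Fin s => ℝ)
          (Equiv.sumComm (Fin s) (Fin r)) := by
      funext y
      ext i
      rw [he, MeasurableEquiv.coe_piCongrLeft]
      rcases i with i | i <;> rfl
    rw [h2]
    exact h1
  refine ⟨ZLattice.comap ℝ Λ (e : (Fin s ⊕ Fin r → ℝ) →ₗ[ℝ] (Fin r ⊕ Fin s → ℝ)),
    fun y => ?_, ?_, ?_⟩
  · rfl
  · refine ⟨inferInstance, IsZLattice.span_top, h.pos, fun x hx hx0 => ?_⟩
    have h1 : e x ∈ Λ := hx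
    have h2 : e x ≠ 0 := by
      intro h0
      exact hx0 (by simpa using h0)
    have h3 := h.sep _ h1 h2
    rw [he] at h3
    simp only [Fintype.sum_sum_type, Sum.swap_inl, Sum.swap_inr] at h3 ⊢
    linarith
  · have hc := ZLattice.covolume_comap Λ volume volume hmp
    unfold dens
    rw [hc]
    simp only [Fintype.card_sum, Fintype.card_fin]
    rw [add_comm s r]

theorem sum_pow_mem {r s : ℕ} (Λ : Submodule ℤ (Fin r ⊕ Fin s → ℝ))
    (h : (Fin r → ℝ) →ₗ[ℝ] (Fin r → ℝ)) (hfix : ∀ u, h u = u → u = 0)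
    (N : ℕ) (hpow : h ^ N = 1)
    (hinv : ∀ x ∈ Λ, Sum.elim (h (fun i => x (Sum.inl i))) (fun j => x (Sum.inr j)) ∈ Λ) :
    ∀ x ∈ Λ, Sum.elim (fun _ => (0 : ℝ)) (fun j => (N : ℝ) * x (Sum.inr j)) ∈ Λ := by
  have hinvk : ∀ k : ℕ, ∀ x ∈ Λ,
      Sum.elim ((h ^ k) (fun i => x (Sum.inl i))) (fun j => x (Sum.inr j)) ∈ Λ := by
    intro k
    induction k with
    | zero =>
      intro x hx
      convert hx using 1
      ext (i | i) <;> simp
    | succ k ih =>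
      intro x hx
      have := hinv _ (ih x hx)
      convert this using 1
      ext (i | i)
      · simp only [Sum.elim_inl, pow_succ']
        rfl
      · simp
  intro x hx
  have h1 : ∑ k ∈ Finset.range N,
      Sum.elim ((h ^ k) (fun i => x (Sum.inl i))) (fun j => x (Sum.inr j)) ∈ Λ :=
    Λ.sum_mem fun k _ => hinvk k x hx
  convert h1 using 1
  have h2 : (∑ k ∈ Finset.range N, (h ^ k)) (fun i => x (Sum.inl i)) = 0 := by
    apply hfix
    have h3 : (h - 1) * ∑ k ∈ Finset.range N, h ^ k = 0 := by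
      rw [mul_geom_sum, hpow, sub_self]
    have h4 := LinearMap.congr_fun h3 (fun i => x (Sum.inl i))
    rw [Module.End.mul_apply, LinearMap.sub_apply, LinearMap.zero_apply, sub_eq_zero] at h4
    exact h4
  ext (i | i)
  · have := congrFun h2 i
    rw [LinearMap.sum_apply] at this
    simp only [Finset.sum_apply, Pi.zero_apply] at this
    simp only [Finset.sum_apply, Sum.elim_inl]
    exact this.symm
  · simp [Finset.sum_apply]

/-- The index is at most `N ^ s`. -/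
theorem split_order {r s : ℕ}
    (Λ : Submodule ℤ (Fin r ⊕ Fin s → ℝ)) (m : ℝ) (hΛ : LatPack Λ m)
    (h : (Fin r → ℝ) →ₗ[ℝ] (Fin r → ℝ)) (hfix : ∀ u, h u = u → u = 0)
    (N : ℕ) (hN : 0 < N) (hpow : h ^ N = 1)
    (hinv : ∀ x ∈ Λ, Sum.elim (h (fun i => x (Sum.inl i))) (fun j => x (Sum.inr j)) ∈ Λ) :
    ∃ (L₁ : Submodule ℤ (Fin r → ℝ)) (L₂ : Submodule ℤ (Fin s → ℝ)),
      LatPack L₁ m ∧ LatPack L₂ m ∧
      dens Λ m ≤ (N : ℝ) ^ s * (vB (r + s) / (vB r * vB s)) * (dens L₁ m * dens L₂ m) := by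
  have hN' : (N : ℝ) ≠ 0 := by exact_mod_cast hN.ne'
  have hNp : (0 : ℝ) < N := by exact_mod_cast hN
  obtain ⟨Λ', hmem, hp, hdens⟩ := swap_pack Λ m hΛ
  have hd := hp.disc
  have hz : IsZLattice ℝ Λ' := ⟨hp.span_top⟩
  have hs1 := sum_pow_mem Λ h hfix N hpow hinv
  have hdet : LinearMap.det ((N : ℝ) • (LinearMap.id : (Fin s → ℝ) →ₗ[ℝ] (Fin s → ℝ)))
      = (N : ℝ) ^ s := by
    rw [LinearMap.det_smul, LinearMap.det_id, mul_one]
    simp
  obtain ⟨L₂, L₁, d2, z2, d1, z1, m2, m1, hc⟩ := covol_split_gen Λ'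
    ((N : ℝ) • (LinearMap.id : (Fin s → ℝ) →ₗ[ℝ] (Fin s → ℝ)))
    (by rw [hdet]; positivity)
    (by
      intro y hy
      rw [hmem] at hy ⊢
      have := hs1 _ hy
      convert this using 1
      ext (i | i)
      · simp
      · simp)
    (N : ℝ) hN'
    (by
      intro y hy
      rw [hmem] at hy ⊢
      have h1 := hs1 _ hy
      have h2 : (N : ℤ) • (fun i => y (Sum.swap i)) ∈ Λ := Λ.smul_mem _ hy
      have := Λ.sub_mem h2 h1
      convert this using 1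
      ext (i | i)
      · simp
      · simp)
  rw [hdet, abs_of_pos (by positivity)] at hc
  have := dens_of_covol Λ' m hp L₂ L₁ d2 z2 d1 z1 m2 m1 ((N : ℝ) ^ s) (by positivity) hc
  obtain ⟨p2, p1, hle⟩ := this
  refine ⟨L₁, L₂, p1, p2, ?_⟩
  rw [← hdens]
  refine hle.trans (le_of_eq ?_)
  rw [add_comm s r, mul_comm (vB s) (vB r), mul_comm (dens L₂ m)]

/-- The index is at most `D ^ r`. -/
theorem split_det {r s : ℕ}
    (Λ : Submodule ℤ (Fin r ⊕ Fin s → ℝ)) (m : ℝ) (hΛ : LatPack Λ m)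
    (h : (Fin r → ℝ) →ₗ[ℝ] (Fin r → ℝ)) (hfix : ∀ u, h u = u → u = 0)
    (N : ℕ) (hN : 0 < N) (hpow : h ^ N = 1)
    (hinv : ∀ x ∈ Λ, Sum.elim (h (fun i => x (Sum.inl i))) (fun j => x (Sum.inr j)) ∈ Λ)
    (D : ℝ) (hD : 0 < D)
    (hS : ∀ d : ℕ, 0 < d → (∃ u : Fin r → ℝ, u ≠ 0 ∧ (aeval h (cyclotomic d ℝ)) u = 0) →
      |(((cyclotomic d ℤ).eval 1 : ℤ) : ℝ)| ≤ D ^ Nat.totient d) :
    ∃ (L₁ : Submodule ℤ (Fin r → ℝ)) (L₂ : Submodule ℤ (Fin s → ℝ)),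
      LatPack L₁ m ∧ LatPack L₂ m ∧
      dens Λ m ≤ D ^ r * (vB (r + s) / (vB r * vB s)) * (dens L₁ m * dens L₂ m) := by
  have hd := hΛ.disc
  have hz : IsZLattice ℝ Λ := ⟨hΛ.span_top⟩
  obtain ⟨L₁, L₂, d1, z1, d2, z2, m1, m2, hc⟩ := covol_split_aut Λ h hfix N hN hpow hinv
  have hL : ∀ u ∈ L₁, h u ∈ L₁ := by
    intro u hu
    rw [m1] at hu ⊢
    have := hinv _ hu
    exact this
  have hdet := lat_det_le L₁ h hL N hN hpow D hD hS
  have c := ZLattice.covolume_pos Λ volume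
  obtain ⟨p1, p2, hle⟩ := dens_of_covol Λ m hΛ L₁ L₂ d1 z1 d2 z2 m1 m2 (D ^ r) (by positivity)
    (hc.trans (mul_le_mul_of_nonneg_right hdet c.le))
  exact ⟨L₁, L₂, p1, p2, hle⟩

end Pool.Agent.TH856.SP
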